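import Pool.Agent.MP_0de6ea_al.NF.Cep
import Pool.Agent.MP_0de6ea_al.RW.BallS
import Mathlib.GroupTheory.OrderOfElement
import Mathlib.Data.Rat.Defs
import Mathlib.Algebra.Field.Rat

/-! Many marked balls that occur in no finite group. -/

namespace Pool.Agent.MP_0de6ea_al.NF

open FreeGroup hiding map_mul map_inv map_one
open RW

/-- In a finite group these two relations force a third one. -/
theorem fin_comm {G : Type} [Group G] [Finite G] {x t y : G} (h1 : t * x = x * x * t)
    (h2 : y * (x * x) = x * x * y) : y * x = x * y := by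
  have e : orderOf (x ^ 2) = orderOf x := by
    have : SemiconjBy t x (x ^ 2) := by rw [SemiconjBy, h1, sq]
    exact (this.orderOf_eq t).symm
  have h0 := orderOf_pos x
  have hg : Nat.gcd 2 (orderOf x) = 1 := by
    rw [orderOf_pow' x two_ne_zero, Nat.div_eq_self] at e
    rw [Nat.gcd_comm]
    omega
  obtain ⟨k, hk⟩ := mem_zpowers_pow_iff.2 hg
  have h3 : Commute y (x ^ 2) := by rw [sq]; exact h2
  have h4 := h3.zpow_right k
  simp only at hk
  rwa [hk] at h4

/-- A group in which they do not. -/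
theorem gadget : ∃ (B : Type) (_ : Group B) (x t y : B), t * x = x * x * t ∧
    y * (x * x) = x * x * y ∧ y * x ≠ x * y := by
  classical
  let f : ℚ × Bool → ℚ × Bool := fun p => (p.1, if ∃ k : ℤ, p.1 = 2 * k then !p.2 else p.2)
  have hf : Function.Involutive f := fun p => by
    by_cases h : ∃ k : ℤ, p.1 = 2 * k <;> simp [f, h]
  refine ⟨Equiv.Perm (ℚ × Bool), inferInstance, (Equiv.addRight 1).prodCongr (Equiv.refl _),
    (Equiv.mulLeft₀ 2 two_ne_zero).prodCongr (Equiv.refl _), hf.toPerm, ?_, ?_, fun h => ?_⟩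
  · ext p
    · simp
      ring
    · simp
  · have : ∀ q : ℚ, (∃ k : ℤ, q + 1 + 1 = 2 * k) ↔ ∃ k : ℤ, q = 2 * k := fun q =>
      ⟨fun ⟨k, h⟩ => ⟨k - 1, by push_cast; linarith⟩, fun ⟨k, h⟩ => ⟨k + 1, by push_cast; linarith⟩⟩
    ext p
    · simp [f]
    · simp [f, this]
  · have h1 := congrArg Prod.snd (DFunLike.congr_fun h (0, false))
    have h2 : ¬ ∃ k : ℤ, (1 : ℚ) = 2 * k := fun ⟨k, h⟩ => by
      have : (1 : ℤ) = 2 * k := by exact_mod_cast h
      omega
    simp [f, h2] at h1

variable {d L m n : ℕ}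

/-- The marked group in which the relators take the values given by `φ`. -/
def MG (R : Fin m → Wd d L) {B : Type} [Group B] (φ : FreeGroup (Fin m) →* B) : Marked d :=
  gen fun i : Fin d => (QuotientGroup.mk (FreeGroup.of i) :
    FreeGroup (Fin d) ⧸ Subgroup.normalClosure (psi R '' φ.ker))

theorem ev_MG (R : Fin m → Wd d L) {B : Type} [Group B] (φ : FreeGroup (Fin m) →* B)
    (u v : List (Lt d)) : ev (MG R φ).s u = ev (MG R φ).s v ↔
      QuotientGroup.mk' (Subgroup.normalClosure (psi R '' φ.ker)) (mk u) =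
        QuotientGroup.mk' _ (mk v) := by
  have : FreeGroup.lift (fun i : Fin d => (QuotientGroup.mk (FreeGroup.of i) :
      FreeGroup (Fin d) ⧸ Subgroup.normalClosure (psi R '' φ.ker))) = QuotientGroup.mk' _ :=
    FreeGroup.ext_hom _ _ fun i => by simp
  unfold MG
  rw [ev_gen_iff, ev_eq_lift, ev_eq_lift, this]

theorem psi_iff {R : Fin m → Wd d L} (hR : DR R) {B : Type} [Group B]
    (φ : FreeGroup (Fin m) →* B) (u v : FreeGroup (Fin m)) :
    QuotientGroup.mk' (Subgroup.normalClosure (psi R '' φ.ker)) (psi R u) =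
      QuotientGroup.mk' _ (psi R v) ↔ φ u = φ v := by
  rw [QuotientGroup.mk'_apply, QuotientGroup.mk'_apply, QuotientGroup.eq, ← map_inv, ← map_mul,
    ← inv_mul_eq_one (a := φ u), ← map_inv, ← map_mul]
  exact ⟨cep hR φ, fun h => Subgroup.subset_normalClosure ⟨_, h, rfl⟩⟩

open Classical in
theorem balls {R : Fin m → Wd d L} (hR : DR R) (hn : L + 1 = 2 * n) {h : ℕ} (hh : 6 * h ≤ n)
    (i j : Fin 3 → Fin m) (hj : Function.Injective j) (hij : ∀ a b, i a ≠ j b)
    (hs : ∀ c, (List.ofFn (R (i c))).drop h = (List.ofFn (R (j c))).drop h) :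
    gCount d n + 2 ^ (m - 6) ≤ fCount d n := by
  obtain ⟨B, _, x, t, y, g1, g2, g3⟩ := gadget
  have hx : x ≠ 1 := fun e => g3 (by simp [e])
  let K : Finset (Fin m) := (Finset.univ.image i ∪ Finset.univ.image j)ᶜ
  have hK : m - 6 ≤ K.card := by
    have h1 := Finset.card_union_le (Finset.univ.image i) (Finset.univ.image j)
    have h2 := Finset.card_image_le (s := Finset.univ) (f := i)
    have h3 := Finset.card_image_le (s := Finset.univ) (f := j)
    simp only [K, Finset.card_compl, Finset.card_univ, Fintype.card_fin] at h2 h3 ⊢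
    omega
  let φ : Finset K → FreeGroup (Fin m) →* B := fun A => FreeGroup.lift fun k =>
    if e : ∃ c, j c = k then ![x, t, y] e.choose else
      if ∃ hk : k ∈ K, ⟨k, hk⟩ ∉ A then x else 1
  let X : Fin 3 → List (Lt d) := fun c =>
    (List.ofFn (R (j c))).take h ++ invRev ((List.ofFn (R (i c))).take h)
  have hX : ∀ c, (X c).length ≤ 2 * h := fun c => by
    simp only [X, List.length_append, invRev_length, List.length_take]
    omega
  have eX : ∀ c, mk (X c) = psi R (of (j c) * (of (i c))⁻¹) := fun c => by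
    have e : ∀ k, psi R (of k) =
        mk ((List.ofFn (R k)).take h) * mk ((List.ofFn (R k)).drop h) := fun k => by
      rw [← mk_app, List.take_append_drop]
      exact lift_apply_of
    rw [map_mul, map_inv, e, e, hs c, mk_app, ← inv_mk]
    group
  have eφ : ∀ A c, φ A (of (j c) * (of (i c))⁻¹) = ![x, t, y] c := fun A c => by
    have h1 : ∃ c', j c' = j c := ⟨c, rfl⟩
    have h2 : ¬ ∃ c', j c' = i c := fun ⟨c', e⟩ => hij c c' e.symm
    have h3 : i c ∉ K := by simp [K]
    simp only [φ, map_mul, map_inv, lift_apply_of, dif_pos h1, dif_neg h2, hj h1.choose_spec]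
    simp [h3]
  have tr : ∀ A (p q : List (Fin 3)), ev (MG R (φ A)).s (p.flatMap X) =
      ev (MG R (φ A)).s (q.flatMap X) ↔ (p.map ![x, t, y]).prod = (q.map ![x, t, y]).prod := by
    intro A p q
    have e : ∀ p : List (Fin 3), ∃ u, mk (p.flatMap X) = psi R u ∧
        φ A u = (p.map ![x, t, y]).prod := fun p => by
      induction p with
      | nil => exact ⟨1, (map_one _).symm, map_one _⟩
      | cons c p ih =>
        obtain ⟨u, h1, h2⟩ := ih
        exact ⟨of (j c) * (of (i c))⁻¹ * u, by rw [List.flatMap_cons, mk_app, eX, h1, ← map_mul],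
          by rw [map_mul, eφ, h2, List.map_cons, List.prod_cons]⟩
    obtain ⟨u, h1, h2⟩ := e p
    obtain ⟨v, h3, h4⟩ := e q
    rw [ev_MG, h1, h3, psi_iff hR, h2, h4]
  have ln : ∀ p : List (Fin 3), p.length ≤ 3 → (p.flatMap X).length ≤ n := fun p hp => by
    have := List.sum_le_card_nsmul (p.map fun c => (X c).length) (2 * h) fun a ha => by
      obtain ⟨c, -, rfl⟩ := List.mem_map.1 ha
      exact hX c
    rw [List.length_map, smul_eq_mul] at this
    rw [List.length_flatMap]
    nlinarith
  have nf : ∀ A (M : Marked d), Finite M.G → ¬ BallIso n (MG R (φ A)) M := by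
    intro A M _ hb
    have k1 := hb.ev_eq (ln [1, 0] (by simp)) (ln [0, 0, 1] (by simp))
      ((tr A _ _).2 (by simpa [mul_assoc] using g1))
    have k2 := hb.ev_eq (ln [2, 0, 0] (by simp)) (ln [0, 0, 2] (by simp))
      ((tr A _ _).2 (by simpa [mul_assoc] using g2))
    simp only [List.flatMap_cons, List.flatMap_nil, List.append_nil, ev_append] at k1 k2
    have k3 := hb.symm.ev_eq (ln [2, 0] (by simp)) (ln [0, 2] (by simp)) (by
      simp only [List.flatMap_cons, List.flatMap_nil, List.append_nil, ev_append]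
      exact fin_comm (k1.trans (mul_assoc _ _ _).symm) (k2.trans (mul_assoc _ _ _).symm))
    exact g3 (by simpa using (tr A _ _).1 k3)
  have mem : ∀ A (k : K), k ∈ A ↔ ev (MG R (φ A)).s ((List.ofFn (R k)).take n) =
      ev (MG R (φ A)).s (invRev ((List.ofFn (R k)).drop n)) := fun A k => by
    have h2 : ¬ ∃ c, j c = k := fun ⟨c, e⟩ => by
      have := k.2
      simp [K, ← e] at this
    have h3 := psi_iff hR (φ A) (of k.1) 1
    rw [ev_MG, ← inv_mk, map_inv, eq_inv_iff_mul_eq_one, ← map_mul, ← mk_app,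
      List.take_append_drop]
    simp only [map_one, psi, lift_apply_of, el, φ, dif_neg h2] at h3
    refine Iff.trans ?_ h3.symm
    by_cases e : k ∈ A <;> simp [e, hx]
  have sub : ∀ A A', BallIso n (MG R (φ A)) (MG R (φ A')) → A ⊆ A' := fun A A' hb k hk => by
    rw [mem] at hk ⊢
    refine hb.ev_eq (by simp) ?_ hk
    rw [invRev_length, List.length_drop, List.length_ofFn]
    omega
  have inj : Function.Injective (Sum.elim (gToF (d := d) (n := n))
      fun A : Finset K => Quot.mk _ (MG R (φ A))) := by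
    refine Function.Injective.sumElim gToF_inj (fun A A' e => ?_) ?_
    · have hb := ballIso_equiv.eqvGen_iff.1 (Quot.eqvGen_exact e)
      exact (sub _ _ hb).antisymm (sub _ _ hb.symm)
    · rintro ⟨M⟩ A e
      exact nf A M.1 M.2 (ballIso_equiv.eqvGen_iff.1 (Quot.eqvGen_exact e)).symm
  have := Nat.card_le_card_of_injective _ inj
  rw [Nat.card_sum, Nat.card_eq_fintype_card (α := Finset K), Fintype.card_finset,
    Fintype.card_coe] at this
  exact (Nat.add_le_add_left (Nat.pow_le_pow_right two_pos hK) _).trans this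

end Pool.Agent.MP_0de6ea_al.NF
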