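import Pool.Agent.MP_0de6ea_al.RW.Vk
import Pool.Agent.MP_0de6ea_al.RW.BallS
import Mathlib.Analysis.Complex.ExponentialBounds

/-! Among many random words two have a long common end. -/

namespace Pool.Agent.MP_0de6ea_al.NF

open Finset RW RW.BallS

variable {d L m : ℕ}

theorem fibre_list {p : List (Lt d)} (hp : FreeGroup.IsReduced p) (h : ℕ) :
    (2 * d - 1) ^ h ≤ ((red (Fin d) (p.length + h)).filter fun l => l.drop h = p).card := by
  classical
  induction h with
  | zero => exact card_pos.2 ⟨p, mem_filter.2 ⟨mem_red.2 ⟨rfl, hp⟩, rfl⟩⟩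
  | succ h ih =>
    set F := (red (Fin d) (p.length + h)).filter fun l => l.drop h = p with hF
    calc (2 * d - 1) ^ (h + 1) ≤ ∑ _l ∈ F, (2 * d - 1) := by
          rw [sum_const, smul_eq_mul, pow_succ]
          exact Nat.mul_le_mul_right _ ih
      _ ≤ ∑ l ∈ F, (univ.filter fun x : Lt d => FreeGroup.IsReduced (x :: l)).card := by
          refine sum_le_sum fun l hl => ?_
          have := card_ext l (mem_red.1 (mem_filter.1 hl).1).2
          rw [Fintype.card_fin] at this
          refine le_trans ?_ (le_of_eq (by convert this.symm))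
          split_ifs <;> omega
      _ ≤ _ := by
          rw [← card_sigma]
          refine card_le_card_of_injOn (fun z => z.2 :: z.1) ?_ ?_
          · rintro ⟨l, x⟩ hz
            obtain ⟨h1, h2⟩ := mem_sigma.1 (mem_coe.1 hz)
            obtain ⟨h3, h4⟩ := mem_filter.1 h1
            exact mem_coe.2 (mem_filter.2 ⟨mem_red.2 ⟨by
              rw [List.length_cons, (mem_red.1 h3).1]; rfl, (mem_filter.1 h2).2⟩, h4⟩)
          · rintro ⟨l, x⟩ - ⟨l', x'⟩ - e
            obtain ⟨rfl, rfl⟩ := List.cons.inj e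
            rfl

theorem ex_W {l : List (Lt d)} (hl : l ∈ red (Fin d) (L + 1)) : ∃ f ∈ W d L, List.ofFn f = l := by
  obtain ⟨h1, h2⟩ := mem_red.1 hl
  obtain ⟨f, rfl⟩ : ∃ f : Wd d L, List.ofFn f = l :=
    ⟨fun a => l[a.1]'(by rw [h1]; exact a.2), List.ext_getElem (by simp [h1]) fun i _ _ => by
      rw [List.getElem_ofFn]⟩
  refine ⟨f, mem_filter.2 ⟨mem_univ _, fun a ha => ?_⟩, rfl⟩
  have h3 := List.isChain_ofFn.1 h2 a.1 (by have := a.2; omega)
  have e1 : (⟨a.1 + 1, by have := a.2; omega⟩ : Fin (L + 1)) = a.succ := rfl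
  have e2 : (⟨a.1, by have := a.2; omega⟩ : Fin (L + 1)) = a.castSucc := rfl
  rw [e1, e2, ha] at h3
  simp [iv] at h3

theorem W_le : (W d L).card ≤ NW d L := by
  rw [← card_red_eq]
  exact card_le_card_of_injOn List.ofFn (fun w hw => mem_coe.2 (mem_red.2
    ⟨List.length_ofFn, Vk.isReduced (mem_filter.1 hw).2⟩)) List.ofFn_injective.injOn

/-- the word without its first `h` letters -/
def sfx (h : ℕ) (w : Wd d L) : List (Lt d) := (List.ofFn w).drop h

theorem fibre {h : ℕ} (hh : h ≤ L + 1) {w : Wd d L} (hw : w ∈ W d L) :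
    (2 * d - 1) ^ h ≤ ((W d L).filter fun w' => sfx h w' = sfx h w).card := by
  refine (fibre_list (p := sfx h w) ((Vk.isReduced (mem_filter.1 hw).2).drop h) h).trans
    (le_trans (card_le_card fun l hl => ?_) (card_image_le (f := List.ofFn)))
  obtain ⟨h1, h2⟩ := mem_filter.1 hl
  rw [show (sfx h w).length + h = L + 1 by simp [sfx]; omega] at h1
  obtain ⟨f, hf, rfl⟩ := ex_W h1
  exact mem_image.2 ⟨f, mem_filter.2 ⟨hf, h2⟩, rfl⟩

open Classical in
/-- tuples without a collision in `J` -/
noncomputable def Fr (d L m h : ℕ) (J : Finset (Fin m)) : Finset (Fin m → Wd d L) :=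
  (Tup d L m).filter fun R => Set.InjOn (fun i => sfx h (R i)) J

theorem step {h : ℕ} (hh : h ≤ L + 1) {J : Finset (Fin m)} {i : Fin m} (hi : i ∉ J) :
    (Fr d L m h (insert i J)).card * (W d L).card ≤
      (Fr d L m h J).card * ((W d L).card - J.card * (2 * d - 1) ^ h) := by
  classical
  calc _ ≤ ((Fr d L m h J).sigma fun R =>
        (W d L).filter fun w => sfx h w ∉ J.image fun k => sfx h (R k)).card := by
        rw [← card_product]
        refine card_le_card_of_injOn (fun z => ⟨Function.update z.1 i z.2, z.1 i⟩) ?_ ?_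
        · rintro ⟨R, w⟩ hz
          obtain ⟨h1, h2⟩ := mem_product.1 (mem_coe.1 hz)
          obtain ⟨h3, h4⟩ := mem_filter.1 h1
          have e : ∀ k ∈ J, Function.update R i w k = R k := fun k hk =>
            Function.update_of_ne (fun e : k = i => hi (e ▸ hk)) _ _
          refine mem_coe.2 (mem_sigma.2 ⟨mem_filter.2 ⟨mem_tup.2 fun k => ?_, fun a ha b hb hab =>
            h4 (by simp [mem_coe.1 ha]) (by simp [mem_coe.1 hb]) ?_⟩,
            mem_filter.2 ⟨mem_tup.1 h3 i, fun hk => ?_⟩⟩)
          · by_cases hk : k = i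
            · simpa [hk] using h2
            · simpa [hk] using mem_tup.1 h3 k
          · simpa only [e a ha, e b hb] using hab
          · obtain ⟨k, hk, e'⟩ := mem_image.1 hk
            simp only [e k hk] at e'
            exact hi (h4 (by simp [hk]) (by simp) e' ▸ hk)
        · rintro ⟨R, w⟩ - ⟨R', w'⟩ - e
          obtain ⟨e1, e2⟩ := Sigma.mk.inj_iff.1 e
          have e3 := eq_of_heq e2
          refine Prod.ext (funext fun k => ?_) (by simpa using congrFun e1 i)
          by_cases hk : k = i
          · rw [hk]; exact e3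
          · simpa [hk] using congrFun e1 k
    _ ≤ _ := by
        rw [card_sigma, ← smul_eq_mul, ← sum_const]
        refine sum_le_sum fun R hR => ?_
        obtain ⟨h3, h4⟩ := mem_filter.1 hR
        have h5 := card_filter_add_card_filter_not (s := W d L)
          fun w => sfx h w ∈ J.image fun k => sfx h (R k)
        have h6 := card_eq_sum_card_fiberwise (f := sfx h) (t := J.image fun k => sfx h (R k))
          (s := (W d L).filter fun w => sfx h w ∈ J.image fun k => sfx h (R k))
          fun w hw => (mem_filter.1 hw).2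
        have h7 : J.card * (2 * d - 1) ^ h ≤
            ((W d L).filter fun w => sfx h w ∈ J.image fun k => sfx h (R k)).card := by
          rw [h6, ← card_image_of_injOn h4, ← smul_eq_mul, ← sum_const]
          refine sum_le_sum fun p hp => ?_
          obtain ⟨k, hk, rfl⟩ := mem_image.1 hp
          refine (fibre hh (mem_tup.1 h3 k)).trans (card_le_card fun w hw => ?_)
          obtain ⟨a1, a2⟩ := mem_filter.1 hw
          exact mem_filter.2 ⟨mem_filter.2 ⟨a1, a2 ▸ hp⟩, a2⟩
        omega

theorem birth (hd : 2 ≤ d) {h : ℕ} (hh : h ≤ L + 1) (J : Finset (Fin m)) :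
    ((Fr d L m h J).card : ℝ) ≤ ((W d L).card : ℝ) ^ m *
      Real.exp (-(((2 * d - 1) ^ h : ℕ) / (W d L).card * (J.card * (J.card - 1) / 2))) := by
  classical
  have hW : (0 : ℝ) < (W d L).card := by exact_mod_cast (nw_pos hd).trans_le (nw_le d L)
  induction J using Finset.induction_on with
  | empty =>
    simp only [card_empty, Nat.cast_zero, zero_mul, zero_div, mul_zero, neg_zero, Real.exp_zero,
      mul_one]
    exact_mod_cast (card_filter_le _ _).trans card_tup.le
  | insert i J hi ih =>
    have h1 := step (d := d) hh hi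
    generalize (2 * d - 1) ^ h = F at *
    have h2 : (((W d L).card - J.card * F : ℕ) : ℝ) ≤
        (W d L).card * Real.exp (-(F / (W d L).card * J.card)) := by
      rcases le_total (W d L).card (J.card * F) with e | e
      · rw [Nat.sub_eq_zero_of_le e, Nat.cast_zero]
        positivity
      · have := mul_le_mul_of_nonneg_left
          (Real.add_one_le_exp (-(F / (W d L).card * J.card))) hW.le
        rw [Nat.cast_sub e]
        refine le_trans (le_of_eq ?_) this
        push_cast
        field_simp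
        ring
    have h3 : ((Fr d L m h (insert i J)).card : ℝ) * (W d L).card ≤ _ :=
      (by exact_mod_cast h1 : _ ≤ ((Fr d L m h J).card : ℝ) * _).trans
        (mul_le_mul ih h2 (Nat.cast_nonneg _) (by positivity))
    refine le_of_mul_le_mul_right (h3.trans (le_of_eq ?_)) hW
    rw [card_insert_of_notMem hi, mul_mul_mul_comm, ← Real.exp_add, mul_right_comm]
    have : -((F : ℝ) / (W d L).card * (J.card * (J.card - 1) / 2)) + -(F / (W d L).card * J.card) =
        -(F / (W d L).card * ((J.card + 1 : ℕ) * ((J.card + 1 : ℕ) - 1) / 2)) := by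
      push_cast
      ring
    rw [this]

theorem ex_good (hd : 2 ≤ d) {h k : ℕ} (hh : h ≤ L + 1) (hk : 3 * k ≤ m) (hm : 1 ≤ m)
    (hC : CntStmt) (hb : 4 * NW d L ≤ (2 * d - 1) ^ h * (k * (k - 1))) :
    ∃ R : Fin m → Wd d L, (∀ i, Rd (R i)) ∧ ¬ Bad R ∧ ∃ i j : Fin 3 → Fin m,
      Function.Injective j ∧ (∀ a b, i a ≠ j b) ∧ ∀ c, sfx h (R (i c)) = sfx h (R (j c)) := by
  classical
  have hW0 := (nw_pos hd).trans_le (nw_le d L)
  have hW : (0 : ℝ) < (W d L).card := by exact_mod_cast hW0
  let J : Fin 3 → Finset (Fin m) := fun c =>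
    univ.image fun t : Fin k => ⟨3 * t + c, by have := t.2; have := c.2; omega⟩
  have hJ : ∀ c, (J c).card = k := fun c => by
    rw [card_image_of_injective, card_univ, Fintype.card_fin]
    intro a b e
    have := congrArg Fin.val e
    exact Fin.ext (by simp only at this; omega)
  have hJ' : ∀ c, ∀ a ∈ J c, a.val % 3 = c := fun c a ha => by
    obtain ⟨t, -, rfl⟩ := mem_image.1 ha
    have := c.2
    simp only
    omega
  have h1 : ∀ c, 7 * (Fr d L m h (J c)).card ≤ (W d L).card ^ m := fun c => by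
    have h2 := birth hd hh (J c)
    have hk1 : 1 ≤ k := by
      by_contra e
      obtain rfl : k = 0 := by omega
      have := nw_pos (d := d) (L := L) hd
      omega
    have h3 : (4 : ℝ) * (W d L).card ≤ ((2 * d - 1) ^ h : ℕ) * (k * (k - 1)) := by
      have := (Nat.mul_le_mul_left 4 W_le).trans hb
      rw [← Nat.cast_pred hk1]
      exact_mod_cast this
    have h4 : (2 : ℝ) ≤ ((2 * d - 1) ^ h : ℕ) / (W d L).card * (k * (k - 1) / 2) := by
      rw [div_mul_eq_mul_div, le_div_iff₀ hW]
      linarith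
    have h5 : 7 * Real.exp (-2) ≤ 1 := by
      have := Real.exp_one_gt_d9
      rw [Real.exp_neg, ← div_eq_mul_inv, div_le_one (Real.exp_pos _),
        show (2 : ℝ) = 1 + 1 by norm_num, Real.exp_add]
      nlinarith
    rw [hJ] at h2
    have h6 := h2.trans (mul_le_mul_of_nonneg_left (Real.exp_le_exp.2 (neg_le_neg h4))
      (by positivity))
    have h7 : (0 : ℝ) < ((W d L).card : ℝ) ^ m := by positivity
    exact_mod_cast (by nlinarith : (7 : ℝ) * (Fr d L m h (J c)).card ≤ ((W d L).card : ℝ) ^ m)
  have h2 := (hC d L m hd hm).trans (Nat.pow_le_pow_left (nw_le d L) _)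
  obtain ⟨R, hR, hn⟩ : ∃ R ∈ Tup d L m, R ∉ (Tup d L m).filter Bad ∪ (Fr d L m h (J 0) ∪
      (Fr d L m h (J 1) ∪ Fr d L m h (J 2))) := by
    refine exists_mem_notMem_of_card_lt_card ?_
    have a1 := card_union_le (Fr d L m h (J 1)) (Fr d L m h (J 2))
    have a2 := card_union_le (Fr d L m h (J 0)) (Fr d L m h (J 1) ∪ Fr d L m h (J 2))
    have a3 := card_union_le ((Tup d L m).filter Bad) (Fr d L m h (J 0) ∪
      (Fr d L m h (J 1) ∪ Fr d L m h (J 2)))
    have a4 := Nat.pow_pos (n := m) hW0
    have := h1 0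
    have := h1 1
    have := h1 2
    rw [card_tup]
    omega
  simp only [mem_union, not_or, Fr, mem_filter, hR, true_and] at hn
  have h3 : ∀ c : Fin 3, ∃ a ∈ J c, ∃ b ∈ J c, sfx h (R a) = sfx h (R b) ∧ a ≠ b := fun c => by
    have : ¬ Set.InjOn (fun i => sfx h (R i)) (J c) := by
      fin_cases c
      exacts [hn.2.1, hn.2.2.1, hn.2.2.2]
    by_contra e
    exact this fun a ha b hb hab => by_contra fun c' => e ⟨a, ha, b, hb, hab, c'⟩
  choose i hi j hj e1 e2 using h3
  refine ⟨R, (mem_filter.1 hR).2, hn.1, i, j, fun a b e => Fin.ext ?_, fun a b e => ?_, e1⟩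
  · rw [← hJ' a _ (hj a), e, hJ' b _ (hj b)]
  · obtain rfl : a = b := Fin.ext (by rw [← hJ' a _ (hi a), e, hJ' b _ (hj b)])
    exact e2 a e

end Pool.Agent.MP_0de6ea_al.NF
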