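import Pool.Agent.MP_0de6ea_al.NF.CepA

/-! Relators without a reduced spherical diagram can be given any values in any group. -/

namespace Pool.Agent.MP_0de6ea_al.NF

open List FreeGroup RW RW.Vk

variable {d L m : ℕ}

/-- No reduced spherical diagram. -/
def DR (R : Fin m → Wd d L) : Prop :=
  ∀ (t : ℕ) (D : Dg (Fin (t + 1)) L) (lab : Fin (t + 1) → Fin m), ¬ D.Fit R lab

/-- The map that sends the generators to the relators. -/
def psi (R : Fin m → Wd d L) : FreeGroup (Fin m) →* FreeGroup (Fin d) :=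
  FreeGroup.lift fun i => el (R i)

namespace Cep

def iS (m : ℕ) (x : Lt d) : Lt (d + m) := (Fin.castAdd m x.1, x.2)

def iY (d : ℕ) (y : Lt m) : Lt (d + m) := (Fin.natAdd d y.1, y.2)

theorem iS_iv {x y : Lt d} (h : iS m x = iv (iS m y)) : x = iv y := by
  simp only [iS, iv, Prod.mk.injEq] at h
  exact Prod.ext (Fin.castAdd_injective _ _ h.1) h.2

theorem ne (x : Lt d) (y : Lt m) : iY d y ≠ iv (iS m x) := fun h => by
  have := congrArg (fun z : Lt (d + m) => z.1.val) h
  have h2 := x.1.2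
  simp only [iY, iS, iv, Fin.val_natAdd, Fin.val_castAdd] at this
  omega

theorem mapS (l : List (Lt d)) : mk (l.map (iS m)) = FreeGroup.map (Fin.castAdd m) (mk l) :=
  FreeGroup.map.mk.symm

theorem mapY (l : List (Lt m)) : mk (l.map (iY d)) = FreeGroup.map (Fin.natAdd d) (mk l) :=
  FreeGroup.map.mk.symm

/-- the relator with its coefficient -/
def Phi (R : Fin m → Wd d L) (i : Fin m × Bool) : FreeGroup (Fin (d + m)) :=
  (sgF i.2 (FreeGroup.map (Fin.castAdd m) (el (R i.1))) * mk [iY d (i.1, !i.2)])⁻¹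

theorem mk_iY (i : Fin m) (b : Bool) :
    mk [iY d (i, !b)] = (sgF b (of (Fin.natAdd d i)))⁻¹ := by
  cases b
  · simp only [sgF, Bool.false_eq_true, if_false, inv_inv]; rfl
  · exact mk_iv (iY d (i, true))

theorem Phi_inv (R : Fin m → Wd d L) (i : Fin m × Bool) :
    ∃ i' c, (Phi R i)⁻¹ = c * Phi R i' * c⁻¹ := by
  refine ⟨(i.1, !i.2), sgF i.2 (FreeGroup.map (Fin.castAdd m) (el (R i.1))), ?_⟩
  simp only [Phi, mk_iY, sgF_not]
  group

variable {T : Type} (R : Fin m → Wd d L) (lab : T → Fin m) (s : T → Bool)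

def l1 (x : Dt T L) : Lt (d + m) := iS m (sg (s x.1) (R (lab x.1) x.2))

def fc (L : ℕ) (f : T) : List (Dt T L ⊕ Lt m) :=
  (cyc s L f).map Sum.inl ++ [Sum.inr (lab f, !s f)]

theorem prod_fc {G : Type} [Group G] (v : Dt T L → G) (w : Lt m → G) (f : T) :
    ((fc lab s L f).map (Sum.elim v w)).prod = ((cyc s L f).map v).prod * w (lab f, !s f) := by
  simp [fc, Function.comp_def]

theorem prod_l1 {G : Type} [Group G] (π : FreeGroup (Fin (d + m)) →* G) (i : Fin m) :
    (List.ofFn fun a => π (mk [iS m (R i a)])).prod =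
      π (FreeGroup.map (Fin.castAdd m) (el (R i))) := by
  rw [el_eq, map_list_prod, map_list_prod, map_ofFn, map_ofFn]
  rfl

theorem mk_l1 {G : Type} [Group G] (π : FreeGroup (Fin (d + m)) →* G) (x : Dt T L) :
    π (mk [l1 R lab s x]) = sgF (s x.1) (π (mk [iS m (R (lab x.1) x.2)])) := by
  have : l1 R lab s x = sg (s x.1) (iS m (R (lab x.1) x.2)) := by
    unfold l1
    cases s x.1 <;> rfl
  rw [this, mk_sg]
  cases s x.1
  exacts [π.map_inv _, rfl]

theorem val_fc (f : T) :
    val (Sum.elim (l1 R lab s) (iY d)) (fc lab s L f) = (Phi R (lab f, s f))⁻¹ := by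
  rw [val_eq_prod, Phi, inv_inv]
  have := prod_fc lab s (fun x => mk [l1 R lab s x]) (fun y => mk [iY d y]) f
  rw [prod_cyc s f _ (fun a => mk [iS m (R (lab f) a)]) fun a => mk_l1 R lab s (MonoidHom.id _) _,
    show (List.ofFn fun a => mk [iS m (R (lab f) a)]).prod = _ from
      prod_l1 R (MonoidHom.id _) (lab f)] at this
  refine Eq.trans ?_ this
  congr 1
  refine map_congr_left fun a _ => ?_
  cases a <;> rfl

variable {B : Type} [Group B] (φ : FreeGroup (Fin m) →* B)

def Bk (L : ℕ) (g : List (Dt T L ⊕ Lt m)) : Prop :=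
  (∃ f p q, fc lab s L f = p ++ q ∧ g = q ++ p) ∨ ∃ l, φ (mk l) = 1 ∧ g = l.map Sum.inr

theorem Bk.rot (p q : List (Dt T L ⊕ Lt m)) (h : Bk lab s φ L (p ++ q)) :
    Bk lab s φ L (q ++ p) := by
  rcases h with ⟨f, p', q', e1, e2⟩ | ⟨l, h, e⟩
  · rcases append_eq_append_iff.1 e2 with ⟨E, rfl, rfl⟩ | ⟨E, rfl, rfl⟩
    · exact Or.inl ⟨f, p' ++ p, E, by simp [e1], by simp⟩
    · exact Or.inl ⟨f, E, q ++ q', by simp [e1], by simp⟩
  · obtain ⟨p0, q0, rfl, rfl, rfl⟩ := map_eq_append_iff.1 e.symm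
    rw [mk_app, φ.map_mul] at h
    exact Or.inr ⟨q0 ++ p0, by rw [mk_app, φ.map_mul, mul_eq_one_comm, h], by simp⟩

theorem val_inr (l : List (Lt m)) : val (Sum.elim (l1 R lab s) (iY d)) (l.map Sum.inr) =
    FreeGroup.map (Fin.natAdd d) (mk l) := by
  rw [← mapY, val, List.map_map]
  rfl

theorem left_inr (l : List (Lt m)) :
    (l.map (Sum.inr : _ → Dt T L ⊕ Lt m)).filterMap Sum.getLeft? = [] := by
  simp [filterMap_map]

theorem left_fc (f : T) : (fc lab s L f).filterMap Sum.getLeft? = cyc s L f := by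
  simp [fc, filterMap_map, Function.comp_def]

/-- the consequences of the relations between the coefficients -/
abbrev KY (d : ℕ) : Subgroup (FreeGroup (Fin (d + m))) :=
  Subgroup.normalClosure (FreeGroup.map (Fin.natAdd d) '' φ.ker)

theorem pf_K {κ : FreeGroup (Fin (d + m))} (h : κ ∈ KY φ d) :
    Pf (Sum.elim (l1 R lab s) (iY d)) (Bk lab s φ L) κ [] := by
  have key : ∀ v ∈ φ.ker, ∀ c, Pf (Sum.elim (l1 R lab s) (iY d)) (Bk lab s φ L)
      (c * (FreeGroup.map (Fin.natAdd d) v)⁻¹ * c⁻¹) [] := fun v hv c => by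
    have := Pf.of (le := Sum.elim (l1 R lab s) (iY d)) (blk := Bk lab s φ L)
      (Or.inr ⟨v.toWord, by rw [mk_toWord]; exact hv, rfl⟩) c
    rwa [val_inr, left_inr, mk_toWord] at this
  induction h using Subgroup.closure_induction'' with
  | mem x hx =>
    obtain ⟨_, ⟨v, hv, rfl⟩, h⟩ := Group.mem_conjugatesOfSet_iff.1 hx
    obtain ⟨c, rfl⟩ := isConj_iff.1 h
    simpa using key v⁻¹ (φ.ker.inv_mem hv) c
  | inv_mem x hx =>
    obtain ⟨_, ⟨v, hv, rfl⟩, h⟩ := Group.mem_conjugatesOfSet_iff.1 hx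
    obtain ⟨c, rfl⟩ := isConj_iff.1 h
    simpa [mul_assoc] using key v hv c
  | one => exact Pf.one
  | mul x y _ _ h1 h2 => exact h1.mul h2

theorem ex_ar {u : FreeGroup (Fin m)}
    (h : psi R u ∈ Subgroup.normalClosure (psi R '' φ.ker)) :
    ∃ n, Ar (fun i => QuotientGroup.mk' (KY φ d) (Phi R i)) n
      (QuotientGroup.mk' (KY φ d) (FreeGroup.map (Fin.natAdd d) u)) := by
  set π := QuotientGroup.mk' (KY φ d) with hπ
  have hΦ : ∀ i, ∃ i' c, (π (Phi R i))⁻¹ = c * π (Phi R i') * c⁻¹ := fun i => by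
    obtain ⟨i', c, e⟩ := Phi_inv R i
    exact ⟨i', π c, by rw [← π.map_inv, e]; simp⟩
  let H : Subgroup (FreeGroup (Fin (d + m)) ⧸ KY φ d) :=
    { carrier := {g | ∃ n, Ar (fun i => π (Phi R i)) n g}
      one_mem' := ⟨0, Ar.nil⟩
      mul_mem' := fun ⟨_, h1⟩ ⟨_, h2⟩ => ⟨_, h1.mul h2⟩
      inv_mem' := fun ⟨_, h1⟩ => ⟨_, h1.inv hΦ⟩ }
  have : H.Normal := ⟨fun _ ⟨_, h1⟩ c => ⟨_, h1.conj c⟩⟩
  let p := (QuotientGroup.mk' H).comp π
  have e : (p.comp (FreeGroup.map (Fin.castAdd m))).comp (psi R) =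
      p.comp (FreeGroup.map (Fin.natAdd d)) := by
    refine FreeGroup.ext_hom _ _ fun i => ?_
    have h1 : p (Phi R (i, true)) = 1 := (QuotientGroup.eq_one_iff _).2
      ⟨1, by simpa using Ar.nil.snoc (Φ := fun i => π (Phi R i)) (i, true) 1⟩
    simp only [Phi, mk_iY, sgF, if_true, _root_.map_inv, _root_.map_mul, inv_eq_one,
      mul_inv_eq_one] at h1
    simpa [psi] using h1
  have h2 : Subgroup.normalClosure (psi R '' φ.ker) ≤ (p.comp (FreeGroup.map (Fin.castAdd m))).ker := by
    refine Subgroup.normalClosure_le_normal ?_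
    rintro _ ⟨v, hv, rfl⟩
    refine (DFunLike.congr_fun e v).trans ?_
    have : π (FreeGroup.map (Fin.natAdd d) v) = 1 :=
      (QuotientGroup.eq_one_iff _).2 (Subgroup.subset_normalClosure ⟨v, hv, rfl⟩)
    simp only [p, MonoidHom.comp_apply, this, _root_.map_one]
  exact (QuotientGroup.eq_one_iff _).1 ((DFunLike.congr_fun e u).symm.trans (h2 h))

theorem of_K {u : FreeGroup (Fin m)} (h : FreeGroup.map (Fin.natAdd d) u ∈ KY φ d) : φ u = 1 := by
  let θ : FreeGroup (Fin (d + m)) →* B :=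
    FreeGroup.lift (Fin.addCases (fun _ => 1) fun i => φ (of i))
  have e : θ.comp (FreeGroup.map (Fin.natAdd d)) = φ := FreeGroup.ext_hom _ _ fun i => by simp [θ]
  have h2 : KY φ d ≤ θ.ker := by
    refine Subgroup.normalClosure_le_normal ?_
    rintro _ ⟨v, hv, rfl⟩
    exact (DFunLike.congr_fun e v).trans hv
  exact (DFunLike.congr_fun e u).symm.trans (h2 h)

end Cep

open Cep in
theorem cep {R : Fin m → Wd d L} (hR : DR R) {B : Type} [Group B] (φ : FreeGroup (Fin m) →* B)
    {u : FreeGroup (Fin m)} (h : psi R u ∈ Subgroup.normalClosure (psi R '' φ.ker)) :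
    φ u = 1 := by
  classical
  have hex := ex_ar R φ h
  set π := QuotientGroup.mk' (KY φ d) with hπ
  have hΦ : ∀ i, ∃ i' c, (π (Phi R i))⁻¹ = c * π (Phi R i') * c⁻¹ := fun i => by
    obtain ⟨i', c, e⟩ := Phi_inv R i
    exact ⟨i', π c, by rw [← π.map_inv, e]; simp⟩
  obtain ⟨n, hn, hmin⟩ : ∃ n, Ar (fun i => π (Phi R i)) n (π (FreeGroup.map (Fin.natAdd d) u)) ∧
      ∀ k, Ar (fun i => π (Phi R i)) k (π (FreeGroup.map (Fin.natAdd d) u)) → n ≤ k :=
    ⟨Nat.find hex, Nat.find_spec hex, fun k hk => Nat.find_min' hex hk⟩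
  rcases n with _ | n
  · exact of_K φ ((QuotientGroup.eq_one_iff _).1 hn.zero)
  exfalso
  have : Nonempty (Fin m × Bool) := hn.nonempty
  obtain ⟨lab0, c, hg⟩ := hn.form π (QuotientGroup.mk'_surjective _)
  let lab : Fin (n + 1) → Fin m := fun f => (lab0 f).1
  let s : Fin (n + 1) → Bool := fun f => (lab0 f).2
  have st : ∀ k ≤ n + 1, ∃ S : List (Dt (Fin (n + 1)) L),
      Pf (Sum.elim (l1 R lab s) (iY d)) (Bk lab s φ L)
        ((List.range k).map fun i => c i * Phi R (lab0 i) * (c i)⁻¹).prod S ∧ S.Nodup ∧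
      ∀ x, x ∈ S ↔ x.1.val < k := by
    intro k hk
    induction k with
    | zero => exact ⟨[], Pf.one, by simp, by simp⟩
    | succ k ih =>
      obtain ⟨S, h1, h5, h6⟩ := ih (by omega)
      let f : Fin (n + 1) := ⟨k, by omega⟩
      have h2 := Pf.of (le := Sum.elim (l1 R lab s) (iY d)) (blk := Bk lab s φ L)
        (h := fc lab s L f) (Or.inl ⟨f, [], fc lab s L f, rfl, by simp⟩) (c k)
      rw [val_fc, inv_inv, left_fc] at h2
      refine ⟨S ++ cyc s L f, ?_, ?_, fun x => ?_⟩
      · rw [range_succ, List.map_append, prod_append]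
        simpa using h1.mul h2
      · refine nodup_append.2 ⟨h5, nodup_cyc s f, fun a ha b hb e => ?_⟩
        have := (h6 a).1 ha
        rw [e, (mem_cyc s).1 hb] at this
        simp [f] at this
      · rw [mem_append, h6, mem_cyc, Fin.ext_iff]
        simp only [f]
        omega
  obtain ⟨S, p1, h5, h6⟩ := st _ le_rfl
  have p2 := p1.mul (pf_K R lab s φ (QuotientGroup.eq.1 hg.symm))
  rw [mul_inv_cancel_left, append_nil, ← mk_toWord (x := u), ← val_inr R lab s] at p2
  obtain ⟨W0, j1, j2, j3⟩ := p2.close (Bk.rot lab s φ) (by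
    rw [List.map_map, FreeGroup.IsReduced, isChain_map]
    refine (isReduced_toWord (x := u)).imp fun a b hab e => hab ?_
    exact Fin.natAdd_injective _ _ e)
  rw [left_inr, nil_append] at j3
  have hnd := j3.nodup_iff.2 h5
  have hall : ∀ x, x ∈ W0.filterMap Sum.getLeft? := fun x => j3.mem_iff.2 ((h6 x).2 x.1.2)
  obtain ⟨al, a1, a2, a3, a5⟩ := matching2 (l1 R lab s) (iY d) (fun x y => ne _ y) W0 j2 hnd hall
  have j5 := neb_filterMap (blk' := Blk s L fun _ => True) Sum.getLeft? (by
    rintro _ (⟨f, p, q, e, rfl⟩ | ⟨l, -, rfl⟩)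
    · exact Or.inr ⟨f, trivial, _, _, by rw [← left_fc lab, e, filterMap_append],
        filterMap_append⟩
    · exact Or.inl (left_inr l)) j1
  rw [left_inr] at j5
  have hcnt : ∀ q : Dt (Fin (n + 1)) L → Bool, W0.countP (Sum.elim q fun _ => false) =
      (W0.filterMap Sum.getLeft?).countP q := fun q => by
    rw [countP_filterMap]
    refine countP_congr fun a _ => ?_
    cases a <;> simp
  generalize W0.filterMap Sum.getLeft? = W at hnd hall a3 j5 hcnt
  have hlen : W.length = Fintype.card (Fin (n + 1)) * (L + 1) := by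
    rw [← List.toFinset_card_of_nodup hnd, Finset.eq_univ_of_forall fun x => mem_toFinset.2 (hall x)]
    simp
  have a4 : ∀ x, al x ≠ x := fun x e => iv_ne _ (by rw [← a2 x, e])
  refine hR n ⟨s, al, ix W, a1, a4, fun x y e => ix_inj (hall x) e,
    fun x => hlen ▸ ix_lt (hall x), fun x y e1 e2 e3 => ?_,
    fun x x' y y' e1 e2 e3 e4 e5 e6 => ?_, ?_⟩ lab ⟨fun x => iS_iv (a2 x), fun x hx => ?_⟩
  · refine a3.nf (fun x => ({x, al x} : Set _)) ?_ hnd ?_ ?_ ?_ (ix_four hall e1 e2 e3)
    · rintro _ ⟨z, rfl⟩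
      refine ⟨{z, al z}, fun u => ?_⟩
      simp only [mem_cons, not_mem_nil, or_false, Set.pair_eq_pair_iff]
      constructor
      · rintro (rfl | rfl) <;> simp [a1]
      · tauto
    · simp [a1, Set.pair_comm]
    · simp [a1, Set.pair_comm]
    · intro e
      rcases Set.pair_eq_pair_iff.1 e with ⟨rfl, -⟩ | ⟨-, e'⟩
      · omega
      · rw [e'] at e2; omega
  · refine j5.nf Prod.fst ?_ hnd e1 e2 e3 (ix_four hall e4 e5 e6)
    rintro _ ⟨f, -, p, q, e, rfl⟩
    exact ⟨f, fun u => by rw [← mem_cyc s, e]; simp [or_comm]⟩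
  · have b1 := jl_nest (nx s) (k := L + 1) (blk := Blk s L fun _ => True) (by
      rintro _ ⟨f, -, p, q, e, rfl⟩
      have := length_cyc (L := L) s f
      rw [e, length_append] at this
      have h9 := chain_cyc (L := L) s f
      rw [e, show p ++ q ++ (p ++ q) = p ++ (q ++ p ++ q) by simp] at h9
      exact ⟨by rw [length_append]; omega, h9.right_of_append.left_of_append⟩) j5
    rw [hlen, ← mul_assoc] at b1
    have b2 := Nat.le_of_mul_le_mul_right b1 (Nat.succ_pos L)
    refine le_trans (Finset.card_le_card (t := (jl (nx s) W).toFinset) fun x hx => ?_)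
      ((toFinset_card_le _).trans (by omega))
    by_contra hc
    obtain ⟨A, B, e⟩ := jl_spec (nx s) (hall x) (mt mem_toFinset.2 hc)
    refine (Finset.mem_filter.1 hx).2 ?_
    rw [e] at hnd ⊢
    exact ix_next hnd
  · obtain ⟨e1, e2⟩ := hx
    change lab (al x).1 = lab x.1 at e1
    change (al x).2 = x.2 at e2
    have hs : s (al x).1 = !s x.1 := by
      have := a2 x
      simp only [l1, e1, e2] at this
      refine Bool.eq_not_of_ne fun e => ?_
      rw [e] at this
      exact iv_ne _ this.symm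
    obtain ⟨γ, hγ⟩ := kill' (fun a => π (mk [iS m (R (lab x.1) a)])) x.2
      (π (of (Fin.natAdd d (lab x.1))))
    let v : Dt (Fin (n + 1)) L → _ := fun z =>
      if z = x ∨ z = al x then sgF (s z.1) γ else π (mk [l1 R lab s z])
    have v1 := a5 _ π v fun z => by
      simp only [v]
      by_cases hz : z = x
      · simp [hz, hs, sgF_not]
      · by_cases hz' : z = al x
        · simp [hz', a1, hs, sgF_not]
        · have g1 : al z ≠ x := fun e => hz' (by rw [← e, a1])
          have g2 : al z ≠ al x := fun e => hz (by rw [← a1 z, e, a1])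
          rw [if_neg (not_or.2 ⟨hz, hz'⟩), if_neg (not_or.2 ⟨g1, g2⟩), a2 z, mk_iv, π.map_inv,
            mul_inv_cancel]
    have v2 : ∀ f, f ≠ x.1 → f ≠ (al x).1 → ((fc lab s L f).map
        (Sum.elim v fun y => π (mk [iY d y]))).prod = (π (Phi R (lab f, s f)))⁻¹ := by
      intro f g1 g2
      rw [prod_fc, prod_cyc s f _ (fun a => π (mk [iS m (R (lab f) a)])) fun a => ?_, prod_l1,
        Phi, π.map_inv, inv_inv, π.map_mul]
      · cases s f <;> simp [sgF]
      have : ¬ ((f, a) = x ∨ (f, a) = al x) := by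
        rintro (e | e)
        · exact g1 (congrArg Prod.fst e)
        · exact g2 (congrArg Prod.fst e)
      simp only [v, if_neg this]
      exact mk_l1 R lab s π _
    have v3 : ∀ f, f = x.1 ∨ f = (al x).1 → ((fc lab s L f).map
        (Sum.elim v fun y => π (mk [iY d y]))).prod = 1 := by
      intro f hf
      have h8 : lab f = lab x.1 := by
        rcases hf with e | e
        · rw [e]
        · rw [e, e1]
      rw [prod_fc, prod_cyc s f v
        (Function.update (fun a => π (mk [iS m (R (lab x.1) a)])) x.2 γ) fun a => ?_, hγ, mk_iY, h8]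
      · cases s f <;> simp [sgF]
      · by_cases ha : a = x.2
        · have : (f, a) = x ∨ (f, a) = al x :=
            hf.imp (fun e => Prod.ext e ha) fun e => Prod.ext e (ha.trans e2.symm)
          simp only [v, if_pos this]
          rw [ha, Function.update_self]
        · have : ¬ ((f, a) = x ∨ (f, a) = al x) := by
            rintro (e | e)
            · exact ha (congrArg Prod.snd e)
            · exact ha ((congrArg Prod.snd e).trans e2)
          simp only [v, if_neg this, Function.update_of_ne ha]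
          rw [mk_l1, h8]
    have v4 : ∀ l : List (Lt m), ((l.map Sum.inr).map (Sum.elim v fun y => π (mk [iY d y]))).prod =
        π (FreeGroup.map (Fin.natAdd d) (mk l)) := fun l => by
      rw [← mapY, show mk (l.map (iY d)) = _ from val_eq_prod (iY d) l, map_list_prod,
        List.map_map, List.map_map]
      rfl
    let q : Dt (Fin (n + 1)) L → Bool := fun z => decide (z.2 = 0 ∧ z.1 ≠ x.1)
    obtain ⟨k, z, z1, z2, z3⟩ := sound (Φ := fun i => π (Phi R i))
      (Sum.elim v fun y => π (mk [iY d y])) (Sum.elim q fun _ => false) j1 (by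
      rintro _ (⟨f, p, r, e, rfl⟩ | ⟨l, hl, rfl⟩)
      · have g0 : ∀ w : Dt (Fin (n + 1)) L ⊕ Lt m → FreeGroup (Fin (d + m)) ⧸ KY φ d,
            ((r ++ p).map w).prod =
            (p.map w).prod⁻¹ * ((fc lab s L f).map w).prod * (p.map w).prod⁻¹⁻¹ := fun w => by
          rw [e]; simp only [List.map_append, prod_append]; group
        by_cases hc : f = x.1 ∨ f = (al x).1
        · exact ⟨0, by rw [g0, v3 f hc]; simpa using Ar.nil, Nat.zero_le _⟩
        · rw [not_or] at hc
          refine ⟨0 + 1, ?_, countP_pos_iff.2 ⟨Sum.inl (f, 0), ?_, by simp [q, hc.1]⟩⟩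
          · rw [g0, v2 f hc.1 hc.2]
            refine Ar.conj (Ar.inv hΦ ?_) _
            simpa using Ar.nil.snoc (Φ := fun i => π (Phi R i)) (lab f, s f) 1
          · have : Sum.inl (f, 0) ∈ fc lab s L f :=
              mem_append_left _ (mem_map_of_mem ((mem_cyc s).2 rfl))
            rw [e] at this
            simpa [or_comm] using this
      · refine ⟨0, ?_, Nat.zero_le _⟩
        rw [v4, show π (FreeGroup.map (Fin.natAdd d) (mk l)) = 1 from
          (QuotientGroup.eq_one_iff _).2 (Subgroup.subset_normalClosure ⟨_, hl, rfl⟩)]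
        exact Ar.nil)
    rw [v1, v4, mk_toWord] at z2
    have z4 := eq_inv_of_mul_eq_one_left z2.symm
    have z5 := hmin k (z4 ▸ z1.inv hΦ)
    have z6 : W.countP q < n + 1 := by
      rw [countP_eq_length_filter, ← List.toFinset_card_of_nodup (hnd.filter _)]
      have : (Finset.univ.erase x.1).card < n + 1 := by
        rw [Finset.card_erase_of_mem (Finset.mem_univ _)]
        simp
      refine lt_of_le_of_lt (Finset.card_le_card_of_injOn (fun z => z.1) ?_ ?_) this
      · intro z hz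
        simp only [coe_toFinset, mem_filter, q, decide_eq_true_eq, Set.mem_ofPred_eq] at hz
        exact Finset.mem_coe.2 (Finset.mem_erase.2 ⟨hz.2.2, Finset.mem_univ _⟩)
      · intro z hz z' hz' e
        simp only [coe_toFinset, mem_filter, q, decide_eq_true_eq, Set.mem_ofPred_eq] at hz hz'
        exact Prod.ext e (hz.2.1.trans hz'.2.1.symm)
    rw [hcnt] at z3
    omega

end Pool.Agent.MP_0de6ea_al.NF
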