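import Pool.Agent.MP_0de6ea_al.RW.Vk

/-! Tools for diagrams with coefficients. -/

namespace Pool.Agent.MP_0de6ea_al.NF

open List FreeGroup RW RW.Vk

section Ar
variable {G ι : Type} [Group G]

/-- Products of `n` conjugates of the elements `Φ i`. -/
inductive Ar (Φ : ι → G) : ℕ → G → Prop
  | nil : Ar Φ 0 1
  | snoc {n g} (i c) : Ar Φ n g → Ar Φ (n + 1) (g * (c * Φ i * c⁻¹))

variable {Φ : ι → G}

theorem Ar.zero {g : G} (h : Ar Φ 0 g) : g = 1 := by cases h; rfl

theorem Ar.nonempty {n : ℕ} {g : G} (h : Ar Φ (n + 1) g) : Nonempty ι := by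
  cases h with
  | snoc i => exact ⟨i⟩

theorem Ar.mul {n k : ℕ} {g h : G} (hg : Ar Φ n g) (hh : Ar Φ k h) : Ar Φ (n + k) (g * h) := by
  induction hh with
  | nil => simpa using hg
  | snoc i c _ ih => rw [← mul_assoc]; exact ih.snoc i c

theorem Ar.conj {n : ℕ} {g : G} (hg : Ar Φ n g) (c : G) : Ar Φ n (c * g * c⁻¹) := by
  induction hg with
  | nil => simpa using Ar.nil
  | @snoc n g i e _ ih =>
    have := ih.snoc i (c * e)
    convert this using 1
    group

theorem Ar.inv (hΦ : ∀ i, ∃ i' c, (Φ i)⁻¹ = c * Φ i' * c⁻¹) {n : ℕ} {g : G} (hg : Ar Φ n g) :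
    Ar Φ n g⁻¹ := by
  induction hg with
  | nil => simpa using Ar.nil
  | @snoc n g i e _ ih =>
    obtain ⟨i', c, h⟩ := hΦ i
    have := (Ar.nil.snoc (Φ := Φ) i' (e * c)).mul ih
    rw [zero_add, add_comm] at this
    convert this using 1
    rw [mul_inv_rev, mul_inv_rev, mul_inv_rev, h]
    group

theorem Ar.form [Nonempty ι] {E : Type} [Group E] (π : E →* G) (hπ : Function.Surjective π)
    (Ψ : ι → E) {n : ℕ} {g : G} (hg : Ar (fun i => π (Ψ i)) n g) :
    ∃ (lab : ℕ → ι) (c : ℕ → E),
      g = π ((List.range n).map fun i => c i * Ψ (lab i) * (c i)⁻¹).prod := by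
  induction hg with
  | nil => exact ⟨fun _ => Classical.arbitrary ι, 1, by simp⟩
  | @snoc n g i c0 _ ih =>
    obtain ⟨lab, c, h2⟩ := ih
    obtain ⟨c1, rfl⟩ := hπ c0
    refine ⟨Function.update lab n i, Function.update c n c1, ?_⟩
    rw [range_succ, List.map_append, prod_append, h2, π.map_mul]
    congr 1
    · congr 2
      refine map_congr_left fun j hj => ?_
      have e : j ≠ n := by have := mem_range.1 hj; omega
      simp only [Function.update_of_ne e]
    · simp

theorem sound {X : Type} {blk : List X → Prop} {b W : List X} (v : X → G)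
    (q : X → Bool) (h : NeB blk b W)
    (hb : ∀ h, blk h → ∃ k, Ar Φ k (h.map v).prod ∧ k ≤ h.countP q) :
    ∃ k z, Ar Φ k z ∧ (W.map v).prod = (b.map v).prod * z ∧ k ≤ W.countP q := by
  suffices H : ∃ k z, Ar Φ k z ∧ (W.map v).prod = (b.map v).prod * z ∧
      k + b.countP q ≤ W.countP q from
    let ⟨k, z, h1, h2, h3⟩ := H
    ⟨k, z, h1, h2, by omega⟩
  induction h with
  | base => exact ⟨0, 1, Ar.nil, by simp, by simp⟩
  | @ins A B h _ hh ih =>
    obtain ⟨k, z, h1, h2, h3⟩ := ih
    obtain ⟨k', h4, h5⟩ := hb h hh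
    refine ⟨k + k', _, h1.mul (h4.conj (B.map v).prod⁻¹), ?_, ?_⟩
    · simp only [List.map_append, prod_append] at h2 ⊢
      rw [← mul_assoc, ← mul_assoc, ← mul_assoc, ← h2]
      group
    · simp only [countP_append] at h3 ⊢
      omega

theorem kill' {n : ℕ} (ρ : Fin n → G) (a : Fin n) (g : G) :
    ∃ γ, (List.ofFn (Function.update ρ a γ)).prod = g := by
  induction n generalizing g with
  | zero => exact a.elim0
  | succ n ih =>
    refine Fin.cases ?_ (fun a => ?_) a
    · refine ⟨g * (List.ofFn fun i => ρ i.succ).prod⁻¹, ?_⟩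
      simp [List.ofFn_succ]
    · obtain ⟨γ, hγ⟩ := ih (fun i => ρ i.succ) a ((ρ 0)⁻¹ * g)
      refine ⟨γ, ?_⟩
      have e : (fun i : Fin n => Function.update ρ a.succ γ i.succ) =
          Function.update (fun i => ρ i.succ) a γ := by
        funext i
        by_cases h : i = a
        · simp [h]
        · simp [h]
      rw [List.ofFn_succ, List.prod_cons, e, hγ, Function.update_of_ne (Fin.succ_ne_zero _).symm]
      group

end Ar

section Lists
variable {X Y : Type}

theorem neb_filterMap {blk : List X → Prop} {blk' : List Y → Prop} (f : X → Option Y)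
    (hb : ∀ g, blk g → g.filterMap f = [] ∨ blk' (g.filterMap f)) {b W : List X}
    (h : NeB blk b W) : NeB blk' (b.filterMap f) (W.filterMap f) := by
  induction h with
  | base => exact NeB.base
  | ins _ hh ih =>
    simp only [filterMap_append] at ih ⊢
    rcases hb _ hh with e | e
    · rwa [e, append_nil]
    · exact ih.ins e

theorem tag (W : List (X ⊕ Y)) (h : (W.filterMap Sum.getLeft?).Nodup) :
    ∃ W' : List (X ⊕ ℕ × Y), W'.Nodup ∧ W'.map (Sum.map id Prod.snd) = W ∧
      W'.filterMap Sum.getLeft? = W.filterMap Sum.getLeft? ∧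
      ∀ k y, Sum.inr (k, y) ∈ W' → k < W.length := by
  induction W with
  | nil => exact ⟨[], by simp⟩
  | cons a W ih =>
    rcases a with x | y
    · simp only [filterMap_cons, Sum.getLeft?_inl, nodup_cons] at h
      obtain ⟨W', h1, h2, h3, h4⟩ := ih h.2
      refine ⟨Sum.inl x :: W', nodup_cons.2 ⟨fun e => h.1 ?_, h1⟩, by simp [h2], by simp [h3],
        fun k y e => ?_⟩
      · rw [← h3]; exact mem_filterMap.2 ⟨_, e, rfl⟩
      · have := h4 k y (by simpa using e)
        simp only [length_cons]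
        omega
    · simp only [filterMap_cons, Sum.getLeft?_inr] at h
      obtain ⟨W', h1, h2, h3, h4⟩ := ih h
      refine ⟨Sum.inr (W.length, y) :: W', nodup_cons.2 ⟨fun e => lt_irrefl _ (h4 _ _ e), h1⟩,
        by simp [h2], h3, fun k y' e => ?_⟩
      simp only [mem_cons, Sum.inr.injEq, Prod.mk.injEq] at e
      rw [length_cons]
      rcases e with e | e
      · omega
      · have := h4 _ _ e
        omega

variable {D : ℕ}

/-- A matching of the darts of the first kind that is universal when the others keep their values. -/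
theorem matching2 [DecidableEq X] [DecidableEq Y] (l1 : X → Lt D) (l2 : Y → Lt D)
    (hne : ∀ x y, l2 y ≠ iv (l1 x)) (W : List (X ⊕ Y)) (hv : val (Sum.elim l1 l2) W = 1)
    (hn : (W.filterMap Sum.getLeft?).Nodup) (hall : ∀ x, x ∈ W.filterMap Sum.getLeft?) :
    ∃ al : X → X, (∀ x, al (al x) = x) ∧ (∀ x, l1 (al x) = iv (l1 x)) ∧
      NeB (fun g => ∃ x, g = [x, al x]) [] (W.filterMap Sum.getLeft?) ∧
      ∀ (G : Type) [Group G] (π : FreeGroup (Fin D) →* G) (v : X → G), (∀ x, v x * v (al x) = 1) →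
        (W.map (Sum.elim v fun y => π (mk [l2 y]))).prod = 1 := by
  obtain ⟨W', h1, h2, h3, -⟩ := tag W hn
  let le' : X ⊕ ℕ × Y → Lt D := Sum.elim l1 fun p => l2 p.2
  have e1 : W'.map le' = W.map (Sum.elim l1 l2) := by
    rw [← h2, List.map_map]
    refine map_congr_left fun a _ => ?_
    cases a <;> rfl
  have hw : FreeGroup.Red (W'.map le') [] := by
    have : reduce (W'.map le') = [] := by
      rw [← toWord_mk, toWord_eq_nil_iff, e1]; exact hv
    rw [← this]
    exact reduce.red
  obtain ⟨al, a1, a0, a2, a3⟩ := matching le' hw W' rfl h1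
  have hin : ∀ x, Sum.inl x ∈ W' := fun x => by
    obtain ⟨a, ha, e⟩ := mem_filterMap.1 (h3 ▸ hall x)
    rcases a with a | a
    · obtain rfl : a = x := by simpa using e
      exact ha
    · simp at e
  have hl : ∀ x, ∃ x', al (Sum.inl x) = Sum.inl x' := fun x => by
    have := a2 _ (hin x)
    rcases e : al (Sum.inl x) with x' | p
    · exact ⟨x', rfl⟩
    · rw [e] at this
      exact absurd this (hne x p.2)
  choose a ha using hl
  have b1 : ∀ x, a (a x) = x := fun x => Sum.inl_injective (by rw [← ha, ← ha, a1])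
  have hr : ∀ p, ∃ p', al (Sum.inr p) = Sum.inr p' := fun p => by
    rcases e : al (Sum.inr p) with x' | p'
    · have := a1 (Sum.inr p)
      rw [e, ha] at this
      cases this
    · exact ⟨p', rfl⟩
  refine ⟨a, b1, fun x => ?_, ?_, fun G _ π v hvv => ?_⟩
  · have := a2 _ (hin x)
    rwa [ha] at this
  · rw [← h3]
    refine neb_filterMap (b := []) Sum.getLeft? ?_ a3
    rintro _ ⟨x | p, rfl⟩
    · exact Or.inr ⟨x, by simp [ha]⟩
    · obtain ⟨p', e⟩ := hr p
      exact Or.inl (by simp [e])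
  · have := a3.prod (Sum.elim v fun p => π (mk [l2 p.2])) (by
      rintro _ ⟨x | p, rfl⟩ hs
      · simp [ha, hvv]
      · obtain ⟨p', e⟩ := hr p
        have h5 := a2 _ (hs (by simp : Sum.inr p ∈ _))
        rw [e] at h5 ⊢
        change l2 p'.2 = iv (l2 p.2) at h5
        simp only [List.map_cons, List.map_nil, prod_cons, prod_nil, mul_one, Sum.elim_inr]
        rw [h5, mk_iv, π.map_inv, mul_inv_cancel])
    rw [← this, ← h2, List.map_map]
    congr 1
    refine map_congr_left fun a _ => ?_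
    cases a <;> rfl

/-- `g` is spelled by a word that becomes trivial after blocks with the darts `S` are put in. -/
def Pf (le : X ⊕ Y → Lt D) (blk : List (X ⊕ Y) → Prop) (g : FreeGroup (Fin D)) (S : List X) :
    Prop :=
  ∃ (w : List (Lt D)) (W : List (Lt D ⊕ X ⊕ Y)) (U : List (X ⊕ Y)), mk w = g ∧
    NeB (fun g => ∃ g0, blk g0 ∧ g = g0.map Sum.inr) (w.map Sum.inl) W ∧
    val (Sum.elim id le) W = 1 ∧ W ~ w.map Sum.inl ++ U.map Sum.inr ∧
    U.filterMap Sum.getLeft? = S

variable {le : X ⊕ Y → Lt D} {blk : List (X ⊕ Y) → Prop}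

theorem Pf.one : Pf le blk 1 [] := ⟨[], [], [], rfl, NeB.base, rfl, by simp, rfl⟩

theorem Pf.mul {g g' : FreeGroup (Fin D)} {S S' : List X} (h : Pf le blk g S)
    (h' : Pf le blk g' S') : Pf le blk (g * g') (S ++ S') := by
  obtain ⟨w, W, U, h1, h2, h3, h4, h5⟩ := h
  obtain ⟨w', W', U', k1, k2, k3, k4, k5⟩ := h'
  refine ⟨w ++ w', W ++ W', U ++ U', by rw [mk_app, h1, k1], ?_, by rw [val_append, h3, k3, one_mul],
    ?_, by rw [filterMap_append, h5, k5]⟩
  · rw [List.map_append]; exact h2.append k2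
  · refine (h4.append k4).trans ?_
    simp only [List.map_append, append_assoc]
    exact Perm.append_left _ (perm_append_comm_assoc _ _ _)

theorem Pf.of {h : List (X ⊕ Y)} (hb : blk h) (c : FreeGroup (Fin D)) :
    Pf le blk (c * (val le h)⁻¹ * c⁻¹) (h.filterMap Sum.getLeft?) := by
  have e1 : ∀ u : List (Lt D), val (Sum.elim id le) (u.map Sum.inl) = mk u := by
    intro u; simp [val, Function.comp_def]
  have e2 : val (Sum.elim id le) (h.map Sum.inr) = val le h := by simp [val, Function.comp_def]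
  refine ⟨c.toWord ++ (val le h)⁻¹.toWord ++ c⁻¹.toWord,
    (c.toWord ++ (val le h)⁻¹.toWord).map Sum.inl ++ h.map Sum.inr ++ c⁻¹.toWord.map Sum.inl, h,
    by simp only [mk_app, mk_toWord], ?_, ?_, ?_, rfl⟩
  · refine NeB.ins ?_ ⟨_, hb, rfl⟩
    rw [← List.map_append]
    exact NeB.base
  · simp only [val_append, e1, e2, mk_app, mk_toWord]
    group
  · simp only [List.map_append, append_assoc]
    exact Perm.append_left _ (Perm.append_left _ perm_append_comm)

theorem Pf.close (hr : ∀ p q, blk (p ++ q) → blk (q ++ p)) {S : List X} {h : List (X ⊕ Y)}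
    (hp : Pf le blk (val le h) S) (hh : IsReduced (h.map le)) :
    ∃ W, NeB blk h W ∧ val le W = 1 ∧
      W.filterMap Sum.getLeft? ~ h.filterMap Sum.getLeft? ++ S := by
  obtain ⟨w, W0, U, h1, h2, h3, h4, h5⟩ := hp
  have hred : FreeGroup.Red w (h.map le) := by
    rw [← isReduced_iff_reduce_eq.1 hh, ← toWord_mk, show mk (h.map le) = mk w from h1.symm,
      toWord_mk]
    exact reduce.red
  obtain ⟨W1, k1, k2, k3⟩ := red_close le (by
    rintro p q ⟨g0, hb, e⟩
    obtain ⟨p0, q0, rfl, rfl, rfl⟩ := map_eq_append_iff.1 e.symm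
    exact ⟨_, hr _ _ hb, by simp⟩) hred h2 h3 h4
  obtain ⟨W, j1, j2, j3⟩ := relabel le k1
  have j4 : W ~ h ++ U := by
    refine j3.trans (Perm.append_left _ ?_)
    simpa [filterMap_map, Function.comp_def] using k3.filterMap Sum.getRight?
  refine ⟨W, j1, by rw [val, j2]; exact k2, ?_⟩
  rw [← h5, ← filterMap_append]
  exact j4.filterMap _

end Lists

end Pool.Agent.MP_0de6ea_al.NF
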