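import Pool.Agent.MP_0de6ea_al.RW.Fin
import Pool.Agent.MP_0de6ea_al.NF.Balls
import Pool.Agent.MP_0de6ea_al.NF.Birth

/-! The number of marked balls that occur in no finite group. -/

namespace Pool.Agent.MP_0de6ea_al.NF

open Filter Topology RW

theorem many {d n L m : ℕ} (hd : 2 ≤ d) (hL : L + 1 = 2 * n) (hm : 1 ≤ m)
    (h : (2 * d - 1) ^ 23 * (24 * m * QQ L) ^ 2 * (QQ L * (L + 1)) ^ 46 < (2 * d - 1) ^ (L + 1))
    (hb : 4 * NW d L ≤ (2 * d - 1) ^ (n / 6) * (m / 3 * (m / 3 - 1))) :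
    gCount d n + 2 ^ (m - 6) ≤ fCount d n := by
  obtain ⟨R, h1, h2, i, j, h3, h4, h5⟩ := ex_good (m := m) hd (by omega) (by omega) hm cntS hb
  refine balls (fun t D lab hf => ?_) hL (by omega) i j h3 h4 h5
  obtain ⟨U, u1, u2, u3⟩ := folS k5S sepS _ L D (brkS _ d L _ R D lab h1 hf)
  exact absurd (detS _ d L _ R D lab U hd hf u1 u2 u3 h2) (not_le.2 h)

theorem grow {l : ℝ} (hl : 3 ≤ l) : ∀ᶠ n : ℕ in atTop, 16 * (n : ℝ) ^ 288 ≤ l ^ (n / 6) := by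
  have ht := tendsto_pow_const_div_const_pow_of_one_lt 288 (r := l) (by linarith)
  obtain ⟨N, hN⟩ := eventually_atTop.1
    (ht.eventually (gt_mem_nhds (by positivity : (0 : ℝ) < 1 / (16 * 12 ^ 288))))
  filter_upwards [eventually_ge_atTop (6 * N + 6)] with n hn
  have h1 := hN (n / 6) (by omega)
  have h2 : (n : ℝ) ≤ 12 * (n / 6 : ℕ) := by exact_mod_cast (by omega : n ≤ 12 * (n / 6))
  have h3 := pow_le_pow_left₀ (Nat.cast_nonneg _) h2 288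
  rw [div_lt_div_iff₀ (by positivity) (by positivity), one_mul] at h1
  rw [mul_pow] at h3
  generalize (12 : ℝ) ^ 288 = c at h1 h3
  linarith

theorem nonfin (d : ℕ) (hd : 2 ≤ d) : ∀ᶠ n : ℕ in atTop,
    (gCount d n : ℝ) + Real.exp ((2 * d - 1 : ℝ) ^ n / (n : ℝ) ^ 144) ≤ fCount d n := by
  obtain ⟨c, hc, hQ⟩ := QQ_le
  obtain ⟨l, hl⟩ : ∃ l : ℕ, l = 2 * d - 1 := ⟨_, rfl⟩
  have hl3 : 3 ≤ l := by omega
  have hlr : (2 * d - 1 : ℝ) = l := by rw [hl, Nat.cast_sub (by omega)]; push_cast; rfl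
  have ht := tendsto_pow_const_div_const_pow_of_one_lt 144 (r := (l : ℝ))
    (by exact_mod_cast (by omega : 1 < l))
  filter_upwards [ht.eventually (gt_mem_nhds (by norm_num : (0 : ℝ) < 1 / 3)),
    eventually_ge_atTop (4 * (24 * c * (c * 2) ^ 23 * l ^ 12) + 1),
    grow (l := l) (by exact_mod_cast hl3)] with n h1 h2 hg
  obtain ⟨L, hL⟩ : ∃ L, L + 1 = 2 * n := ⟨2 * n - 1, by omega⟩
  obtain ⟨q1, q2⟩ := hQ L n hL
  have key := fun m => many (d := d) (n := n) (L := L) (m := m) hd hL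
  have hN : NW d L ≤ 2 * l ^ (2 * n) := by
    rw [NW, ← hl, ← hL, pow_succ, mul_comm (l ^ L), ← mul_assoc]
    exact Nat.mul_le_mul_right _ (by omega)
  rw [← hl, hL] at key
  generalize QQ L = Q at q1 q2 key
  obtain ⟨P, hP⟩ : ∃ P, P = 24 * Q * (Q * (2 * n)) ^ 23 * l ^ 12 := ⟨_, rfl⟩
  have hn : 1 ≤ n := by omega
  have hP0 : 0 < P := by rw [hP]; positivity
  have hP1 : 4 * P ≤ n ^ 144 := by
    calc 4 * P ≤ 4 * (24 * (c * n ^ 5) * (c * n ^ 5 * (2 * n)) ^ 23 * l ^ 12) := by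
          rw [hP]; gcongr
      _ = 4 * (24 * c * (c * 2) ^ 23 * l ^ 12) * n ^ 143 := by ring
      _ ≤ n * n ^ 143 := Nat.mul_le_mul_right _ (by omega)
      _ = _ := by ring
  have hn0 : (0 : ℝ) < (n : ℝ) ^ 144 := by positivity
  have hl0 : (0 : ℝ) < (l : ℝ) ^ n := by positivity
  rw [hlr]
  obtain ⟨x, hx⟩ : ∃ x : ℝ, x = (l : ℝ) ^ n / (n : ℝ) ^ 144 := ⟨_, rfl⟩
  rw [← hx]
  have hx2 : 3 < x := by
    rw [div_lt_iff₀ hl0] at h1
    rw [hx, lt_div_iff₀ hn0]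
    linarith
  have hxn : x * (n : ℝ) ^ 144 = (l : ℝ) ^ n := by rw [hx]; field_simp
  have hxP : 4 * x * P ≤ (l : ℝ) ^ n := by
    have : (4 : ℝ) * P ≤ (n : ℝ) ^ 144 := by exact_mod_cast hP1
    calc 4 * x * P = x * (4 * P) := by ring
      _ ≤ x * (n : ℝ) ^ 144 := by gcongr
      _ = _ := hxn
  have hdiv : 4 * x < ((l ^ n / P : ℕ) : ℝ) + 1 := by
    have h3 : l ^ n < (l ^ n / P + 1) * P := by
      rw [mul_comm]; exact Nat.lt_mul_div_succ _ hP0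
    have h4 : (l : ℝ) ^ n < (((l ^ n / P : ℕ) : ℝ) + 1) * P := by exact_mod_cast h3
    exact lt_of_mul_lt_mul_right (hxP.trans_lt h4) (Nat.cast_nonneg _)
  obtain ⟨m, hm⟩ : ∃ m, l ^ n / P = m + 6 := by
    have : (6 : ℝ) ≤ ((l ^ n / P : ℕ) : ℝ) := by linarith
    exact ⟨l ^ n / P - 6, by have : 6 ≤ l ^ n / P := by exact_mod_cast this
                             omega⟩
  have h5 : (m + 6) * P ≤ l ^ n := hm ▸ Nat.div_mul_le_self _ _
  rw [hm] at hdiv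
  push_cast at hdiv
  have h6 := key (m + 6) (by omega) (by
    have a1 : l * (l ^ 23 * (24 * (m + 6) * Q) ^ 2 * (Q * (2 * n)) ^ 46) ≤ l ^ (2 * n) := by
      calc _ = ((m + 6) * P) ^ 2 := by rw [hP]; ring
        _ ≤ (l ^ n) ^ 2 := Nat.pow_le_pow_left h5 _
        _ = _ := by ring
    have a2 : 0 < l ^ (2 * n) := by positivity
    generalize l ^ 23 * (24 * (m + 6) * Q) ^ 2 * (Q * (2 * n)) ^ 46 = y at a1
    nlinarith) (by
    obtain ⟨k, hk⟩ : ∃ k, (m + 6) / 3 = k + 1 := ⟨(m + 6) / 3 - 1, by omega⟩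
    have a1 : (m : ℝ) + 1 ≤ 3 * k := by exact_mod_cast (by omega : m + 1 ≤ 3 * k)
    have a2 : x * x / 2 ≤ (k + 1) * k := by nlinarith
    have a3 : (8 : ℝ) * (l : ℝ) ^ (2 * n) ≤ (l : ℝ) ^ (n / 6) * ((k + 1) * k) := by
      calc (8 : ℝ) * (l : ℝ) ^ (2 * n) = 16 * (n : ℝ) ^ 288 * (x * x / 2) := by
            rw [two_mul, pow_add, ← hxn]; ring
        _ ≤ _ := mul_le_mul hg a2 (by positivity) (by positivity)
    rw [hk, Nat.add_sub_cancel]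
    have a4 : 8 * l ^ (2 * n) ≤ l ^ (n / 6) * ((k + 1) * k) := by exact_mod_cast a3
    omega)
  rw [Nat.add_sub_cancel] at h6
  have h7 : (gCount d n : ℝ) + (2 : ℝ) ^ m ≤ fCount d n := by exact_mod_cast h6
  refine le_trans (add_le_add_right ?_ _) h7
  have h8 := Real.log_two_gt_d9
  rw [← Real.exp_log (by norm_num : (0 : ℝ) < 2), ← Real.exp_nat_mul, Real.exp_le_exp]
  nlinarith

end Pool.Agent.MP_0de6ea_al.NF
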